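import Pool.Agent.helper37.F2.Spec2

set_option autoImplicit false

open scoped BigOperators

namespace Pool.Agent.F2T

open Pool.Agent.helper23.TH Pool.Agent.F2

theorem TS (hTB : TB_stmt) (hTE : TE_stmt) (hTHM1 : THM1_stmt) (hSUB : SUB_stmt) : TS_stmt := by
  intro a t ha0 ha1 ht hG
  obtain ⟨T, hB, hI, hE, hIE, hST⟩ := hG
  have hI' : Fintype.card (T.Lt t).I = Fintype.card T.I + Fintype.card T.E * (t - 1) := by
    change Fintype.card (T.I ⊕ (T.E × Fin (t - 1))) = _
    rw [Fintype.card_sum, Fintype.card_prod, Fintype.card_fin]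
  have hE' : Fintype.card (T.Lt t).E = Fintype.card T.I + Fintype.card T.E * t := by
    change Fintype.card (T.I ⊕ (T.E × Fin t)) = _
    rw [Fintype.card_sum, Fintype.card_prod, Fintype.card_fin]
  refine ⟨T.Lt t, hTB T t hB ht, ?_, ?_, ?_, ?_⟩
  · rw [hI']; omega
  · rw [hE']; omega
  · rw [hI', hE']
    have h1 : (t : ℚ) + 1 - a ≠ 0 := by
      have : (0 : ℚ) ≤ t := Nat.cast_nonneg t
      intro h
      linarith
    push_cast [Nat.cast_sub ht]
    rw [hIE]
    field_simp
    ring
  · intro p hp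
    have hne : Nonempty (T.pwH p).E := by
      change Nonempty (Fin p × T.E)
      have h1 : Nonempty T.E := Fintype.card_pos_iff.1 (by omega)
      exact ⟨(⟨0, by omega⟩, h1.some)⟩
    have h1 := hTHM1 (T.pwH p) t (a : ℝ) ht (by exact_mod_cast ha0) (by exact_mod_cast ha1) hne (hST p hp)
    have h2 := hSUB ((T.Lt t).pwH p) ((T.pwH p).Lt t) (1 / ((t : ℝ) + 1 - a)) (hTE T t p ht) h1
    push_cast
    exact h2

end Pool.Agent.F2T
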